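import Pool.Agent.K3h26.KP.Stm

/-!
# Brick KEL: differences of the centres for the Keller table
-/

set_option autoImplicit false
set_option linter.all false

open Set
open scoped NNReal

namespace Pool.Agent.K3h12.KP

open H947TP Pool.Agent.K3h26.KP

/-- the masks of the classes -/
def msk (j k : ℕ) : ℕ :=
  match j, k with
  | 0, 0 => 104
  | 0, 1 => 148
  | 0, 2 => 146
  | 0, 3 => 97
  | 0, 4 => 6
  | 0, 5 => 9
  | 0, 6 => 9
  | 0, 7 => 6
  | 1, 4 => 1
  | 1, 5 => 2
  | 1, 6 => 2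
  | 1, 7 => 1
  | 2, 4 => 8
  | 2, 5 => 4
  | 2, 6 => 4
  | 2, 7 => 8
  | 3, 4 => 96
  | 3, 5 => 144
  | 3, 6 => 144
  | 3, 7 => 96
  | _, _ => 0

theorem msk_bit : ∀ (j : Fin 4) (k l : Fin 8), (msk j k).testBit l = true → ty k l = (j : ℕ) := by
  decide

theorem msk_lt : ∀ (j : Fin 4) (k : Fin 8), msk j k < 256 := by
  decide

/-- the condition on the differences in the direction `k` -/
def cnd (k d : ℕ) : Bool :=
  (d &&& msk 0 k != 0) || ((d &&& msk 1 k != 0) && (d &&& msk 2 k != 0)) ||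
    ((d &&& msk 1 k != 0) && (d &&& msk 3 k != 0)) || ((d &&& msk 2 k != 0) && (d &&& msk 3 k != 0))

/-- the check for one pair: `X` the difference of the parities, `d` the difference of the values -/
def kc (X d : ℕ) : Bool :=
  (X &&& (d ^^^ 255) != 0) &&
    (List.range 8).all (fun k => (X &&& (d ^^^ 255) != 2 ^ k) || cnd k d)

/-- the table -/
def tab (x : ℕ) : ℕ := (kellerNum >>> (8 * x)) % 2 ^ 8

theorem kel_check : (List.range 256).all (fun x => (List.range x).all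
    (fun y => kc (x ^^^ y) (tab x ^^^ tab y))) = true := by
  decide +kernel

theorem kel_pair {x y : ℕ} (hx : x < 256) (hy : y < 256) (hxy : x ≠ y) :
    kc (x ^^^ y) (tab x ^^^ tab y) = true := by
  have h := kel_check
  rw [List.all_eq_true] at h
  rcases lt_or_gt_of_ne hxy with h1 | h1
  · have h2 := h y (List.mem_range.2 hy)
    rw [List.all_eq_true] at h2
    rw [Nat.xor_comm x y, Nat.xor_comm (tab x)]
    exact h2 x (List.mem_range.2 h1)
  · have h2 := h x (List.mem_range.2 hx)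
    rw [List.all_eq_true] at h2
    exact h2 y (List.mem_range.2 h1)

theorem tab_lt (x : ℕ) : tab x < 2 ^ 8 := Nat.mod_lt _ (by norm_num)

/-- a common bit -/
theorem exists_bit {d : ℕ} {j : Fin 4} {k : Fin 8} (h : (d &&& msk j k != 0) = true) :
    ∃ l : Fin 8, d.testBit l = true ∧ ty k l = (j : ℕ) := by
  rw [bne_iff_ne] at h
  obtain ⟨i, hi⟩ := Nat.exists_testBit_of_ne_zero h
  rw [Nat.testBit_and, Bool.and_eq_true] at hi
  have hi8 : i < 8 := by
    by_contra hcon
    push Not at hcon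
    have h2 : (msk j k).testBit i = false :=
      Nat.testBit_lt_two_pow ((msk_lt j k).trans_le (by
        calc 256 = 2 ^ 8 := by norm_num
          _ ≤ 2 ^ i := Nat.pow_le_pow_right (by norm_num) hcon))
    rw [h2] at hi
    simp at hi
  exact ⟨⟨i, hi8⟩, hi.1, msk_bit j k ⟨i, hi8⟩ hi.2⟩

/-- the combinatorial statement -/
theorem comb {q q' : Fin 8 → Bool} (hq : q ≠ q') : ∃ k, q k ≠ q' k ∧ kelf q k = kelf q' k ∧
    ((∃ l, l ≠ k ∧ q l ≠ q' l ∧ kelf q l = kelf q' l) ∨
      (∃ l, kelf q l ≠ kelf q' l ∧ ty k l = 0) ∨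
      ∃ j1 j2 l1 l2, ty k l1 = j1 ∧ ty k l2 = j2 ∧ kelf q l1 ≠ kelf q' l1 ∧
        kelf q l2 ≠ kelf q' l2 ∧ ((j1 = 1 ∧ j2 = 2) ∨ (j1 = 1 ∧ j2 = 3) ∨ (j1 = 2 ∧ j2 = 3))) := by
  have hne : g1num q ≠ g1num q' := fun h => hq (g1num_inj h)
  have h1 := kel_pair (x := g1num q) (y := g1num q') (g1num_lt q) (g1num_lt q') hne
  set X := g1num q ^^^ g1num q' with hX
  set d := tab (g1num q) ^^^ tab (g1num q') with hd
  have hXb : ∀ i : Fin 8, X.testBit i = true ↔ q i ≠ q' i := by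
    intro i
    rw [hX, Nat.testBit_xor, g1num_testBit, g1num_testBit]
    cases q i <;> cases q' i <;> simp
  have hdb : ∀ i : Fin 8, d.testBit i = true ↔ kelf q i ≠ kelf q' i := by
    intro i
    rw [hd, Nat.testBit_xor]
    show _ ↔ (tab (g1num q)).testBit i ≠ (tab (g1num q')).testBit i
    cases (tab (g1num q)).testBit i <;> cases (tab (g1num q')).testBit i <;> simp
  have hXlt : X < 2 ^ 8 := Nat.xor_lt_two_pow (g1num_lt q) (g1num_lt q')
  unfold kc at h1
  rw [Bool.and_eq_true, bne_iff_ne, List.all_eq_true] at h1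
  obtain ⟨h2, h3⟩ := h1
  set u := X &&& (d ^^^ 255) with hu
  have hub : ∀ i : Fin 8, u.testBit i = true ↔ (q i ≠ q' i ∧ kelf q i = kelf q' i) := by
    intro i
    rw [hu, Nat.testBit_and, Bool.and_eq_true, hXb, Nat.testBit_xor]
    have h255 : (255 : ℕ).testBit i = true := by
      have : (255 : ℕ) = 2 ^ 8 - 1 := by norm_num
      rw [this, Nat.testBit_two_pow_sub_one]
      exact decide_eq_true i.isLt
    rw [h255]
    have h4 := hdb i
    constructor
    · rintro ⟨h5, h6⟩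
      refine ⟨h5, ?_⟩
      by_contra h7
      rw [h4.2 h7] at h6
      simp at h6
    · rintro ⟨h5, h6⟩
      refine ⟨h5, ?_⟩
      have h7 : d.testBit i = false := by
        by_contra h8
        exact (h4.1 (Bool.eq_true_of_not_eq_false h8)) h6
      rw [h7]
      rfl
  have hult : u < 2 ^ 8 := lt_of_le_of_lt Nat.and_le_left hXlt
  obtain ⟨i, hi⟩ := Nat.exists_testBit_of_ne_zero h2
  have hi8 : i < 8 := by
    by_contra hcon
    push Not at hcon
    rw [Nat.testBit_lt_two_pow (hult.trans_le (Nat.pow_le_pow_right (by norm_num) hcon))] at hi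
    simp at hi
  obtain ⟨hk1, hk2⟩ := (hub ⟨i, hi8⟩).1 hi
  refine ⟨⟨i, hi8⟩, hk1, hk2, ?_⟩
  have h4 := h3 i (List.mem_range.2 hi8)
  rw [Bool.or_eq_true, bne_iff_ne] at h4
  rcases h4 with h4 | h4
  · left
    by_contra hno
    push Not at hno
    apply h4
    apply Nat.eq_of_testBit_eq
    intro j
    rw [Nat.testBit_two_pow]
    by_cases hj : j < 8
    · by_cases hji : i = j
      · subst hji
        rw [hi]
        simp
      · have h5 : u.testBit j ≠ true := by
          intro h6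
          obtain ⟨h7, h8⟩ := (hub ⟨j, hj⟩).1 h6
          exact hno ⟨j, hj⟩ (fun h9 => hji (congrArg Fin.val h9).symm) h7 h8
        rw [Bool.eq_false_of_not_eq_true h5]
        simp [hji]
    · push Not at hj
      rw [Nat.testBit_lt_two_pow (hult.trans_le (Nat.pow_le_pow_right (by norm_num) hj))]
      have : ¬ i = j := by omega
      simp [this]
  · right
    unfold cnd at h4
    rw [Bool.or_eq_true, Bool.or_eq_true, Bool.or_eq_true, Bool.and_eq_true, Bool.and_eq_true,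
      Bool.and_eq_true] at h4
    rcases h4 with ((h5 | ⟨h5, h6⟩) | ⟨h5, h6⟩) | ⟨h5, h6⟩
    · left
      obtain ⟨l, hl, hl'⟩ := exists_bit (j := 0) (k := ⟨i, hi8⟩) h5
      exact ⟨l, (hdb l).1 hl, hl'⟩
    · right
      obtain ⟨l, hl, hl'⟩ := exists_bit (j := 1) (k := ⟨i, hi8⟩) h5
      obtain ⟨m, hm, hm'⟩ := exists_bit (j := 2) (k := ⟨i, hi8⟩) h6
      exact ⟨_, _, l, m, rfl, rfl, (hdb l).1 hl, (hdb m).1 hm, Or.inl ⟨hl', hm'⟩⟩
    · right
      obtain ⟨l, hl, hl'⟩ := exists_bit (j := 1) (k := ⟨i, hi8⟩) h5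
      obtain ⟨m, hm, hm'⟩ := exists_bit (j := 3) (k := ⟨i, hi8⟩) h6
      exact ⟨_, _, l, m, rfl, rfl, (hdb l).1 hl, (hdb m).1 hm, Or.inr (Or.inl ⟨hl', hm'⟩)⟩
    · right
      obtain ⟨l, hl, hl'⟩ := exists_bit (j := 2) (k := ⟨i, hi8⟩) h5
      obtain ⟨m, hm, hm'⟩ := exists_bit (j := 3) (k := ⟨i, hi8⟩) h6
      exact ⟨_, _, l, m, rfl, rfl, (hdb l).1 hl, (hdb m).1 hm, Or.inr (Or.inr ⟨hl', hm'⟩)⟩

theorem same (Z Z' : Fin 8 → ℤ) (l : Fin 8) (h : kelf (par8 Z) l = kelf (par8 Z') l) :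
    tau8 kelf Z l - tau8 kelf Z' l = ((Z l - Z' l : ℤ) : ℝ) := by
  unfold tau8
  rw [h]
  push_cast
  ring

theorem diff (Z Z' : Fin 8 → ℤ) (l : Fin 8) (h : kelf (par8 Z) l ≠ kelf (par8 Z') l) :
    1 / 2 ≤ |tau8 kelf Z l - tau8 kelf Z' l| := by
  unfold tau8
  rcases h1 : kelf (par8 Z) l with _ | _ <;> rcases h2 : kelf (par8 Z') l with _ | _
  · exact absurd (h1.trans h2.symm) h
  · have h3 := E1aux.half_ge (Z l - Z' l - 1)
    refine h3.trans (le_of_eq ?_)
    congr 1
    push_cast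
    simp
    ring
  · have h3 := E1aux.half_ge (Z l - Z' l)
    refine h3.trans (le_of_eq ?_)
    congr 1
    push_cast
    simp
    ring
  · exact absurd (h1.trans h2.symm) h

theorem mm_ge (k l : Fin 8) (j : Fin 4) (w : Fin 8 → ℝ) (h : ty k l = (j : ℕ)) :
    |w l| ≤ mm id k w j := by
  unfold mm
  have h1 := Finset.le_sup (s := (Finset.univ : Finset (Fin 8)))
    (f := fun i : Fin 8 => if ty k (id i) = (j : ℕ) then ‖w i‖₊ else 0) (Finset.mem_univ l)
  simp only [id] at h1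
  rw [if_pos h] at h1
  have h2 : ((‖w l‖₊ : ℝ≥0) : ℝ) ≤ _ := NNReal.coe_le_coe.2 h1
  rw [coe_nnnorm, Real.norm_eq_abs] at h2
  exact h2

/-- **Brick KEL.** -/
theorem t_KEL : S_KEL := by
  intro Z Z' hne
  by_cases hpar : par8 Z = par8 Z'
  · left
    obtain ⟨k, hk⟩ := Function.ne_iff.mp hne
    refine ⟨k, ?_⟩
    rw [same Z Z' k (by rw [hpar])]
    have h1 := congrFun hpar k
    unfold par8 at h1
    rw [decide_eq_decide] at h1
    have h2 : 2 ≤ |Z k - Z' k| := by
      rw [le_abs]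
      omega
    have h3 : ((2 : ℤ) : ℝ) ≤ ((|Z k - Z' k| : ℤ) : ℝ) := by exact_mod_cast h2
    rw [Int.cast_abs] at h3
    push_cast at h3 ⊢
    linarith
  · right
    obtain ⟨k, hk1, hk2, hk3⟩ := comb hpar
    have hodd : ∀ l, par8 Z l ≠ par8 Z' l → kelf (par8 Z) l = kelf (par8 Z') l →
        1 ≤ |tau8 kelf Z l - tau8 kelf Z' l| := by
      intro l h1 h2
      rw [same Z Z' l h2]
      apply E1aux.int_ge
      intro h3
      apply h1
      unfold par8
      rw [decide_eq_decide]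
      omega
    have hk := hodd k hk1 hk2
    rcases hk3 with ⟨l, hl1, hl2, hl3⟩ | ⟨l, hl1, hl2⟩ | ⟨j1, j2, l1, l2, h1, h2, h3, h4, h5⟩
    · left
      exact ⟨k, l, hl1.symm, hk, hodd l hl2 hl3⟩
    · right
      refine ⟨k, hk, ?_⟩
      have h1 := mm_ge k l 0 (fun l => tau8 kelf Z l - tau8 kelf Z' l) hl2
      have h2 := diff Z Z' l hl1
      unfold gg
      exact (h2.trans h1).trans (le_max_left _ _)
    · right
      refine ⟨k, hk, ?_⟩
      have d1 := diff Z Z' l1 h3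
      have d2 := diff Z Z' l2 h4
      rcases h5 with ⟨rfl, rfl⟩ | ⟨rfl, rfl⟩ | ⟨rfl, rfl⟩
      · have m1 := mm_ge k l1 1 (fun l => tau8 kelf Z l - tau8 kelf Z' l) h1
        have m2 := mm_ge k l2 2 (fun l => tau8 kelf Z l - tau8 kelf Z' l) h2
        unfold gg
        refine le_trans ?_ ((le_max_left _ _).trans (le_max_right _ _))
        linarith
      · have m1 := mm_ge k l1 1 (fun l => tau8 kelf Z l - tau8 kelf Z' l) h1
        have m2 := mm_ge k l2 3 (fun l => tau8 kelf Z l - tau8 kelf Z' l) h2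
        unfold gg
        refine le_trans ?_ (((le_max_left _ _).trans (le_max_right _ _)).trans (le_max_right _ _))
        linarith
      · have m1 := mm_ge k l1 2 (fun l => tau8 kelf Z l - tau8 kelf Z' l) h1
        have m2 := mm_ge k l2 3 (fun l => tau8 kelf Z l - tau8 kelf Z' l) h2
        unfold gg
        refine le_trans ?_ (((le_max_right _ _).trans (le_max_right _ _)).trans (le_max_right _ _))
        linarith

end Pool.Agent.K3h12.KP
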